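import Pool.Agent.W39.MolDens

set_option autoImplicit false

/-! Generalised Hasse–Syracuse maps in Möller's range, arbitrary admissible offsets: every class of
trajectories has a positive natural density, and what an infinite exceptional set would imply. -/

namespace Pool.Agent.Results.MP_fd8838_nt.EveryClassPositive
open Filter Topology

/-- the generalised Hasse–Syracuse map `H(x) = (m x - r_j) / d ^ a(x)`, where `j` is the residue of
`x` modulo `d` and `d ^ a(x)` is the largest power of `d` dividing `m x - r_j` -/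
noncomputable def H (d m : ℕ) (r : ℤ → ℤ) (x : ℤ) : ℤ :=
  (m * x - r (x % d)) / (d : ℤ) ^ multiplicity (d : ℤ) (m * x - r (x % d))

/-- the exceptional set `E(d, m, R)`: the positive integers `n` not divisible by `d` such that
`H^k(n) ≥ n` for all `k ≥ 1` for which `H^k(n)` is defined (the orbit stops at `y` if
`m y ≤ r_j`) -/
def E (d m : ℕ) (r : ℤ → ℤ) : Set ℤ :=
  {n | 0 < n ∧ ¬ (d : ℤ) ∣ n ∧ ∀ k, 1 ≤ k →
    (∀ i < k, r ((H d m r)^[i] n % d) < m * (H d m r)^[i] n) → n ≤ (H d m r)^[k] n}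

/-- the map `T(n) = n / d` if `d ∣ n` and `(m n - r_j) / d` if `n ≡ j mod d`, `1 ≤ j < d` -/
def T (d m : ℕ) (r : ℤ → ℤ) (n : ℤ) : ℤ :=
  if (d : ℤ) ∣ n then n / d else (m * n - r (n % d)) / d

/-- `S` has natural density `δ` on the side `σ` (`σ = 1`: positive integers, `σ = -1`: negative
integers): `#{x ∈ S : 1 ≤ σ x ≤ N} / N → δ` -/
def HasDensity (S : Set ℤ) (σ : ℤ) (δ : ℝ) : Prop :=
  Tendsto (fun N : ℕ => (Set.ncard {x : ℤ | x ∈ S ∧ 1 ≤ σ * x ∧ σ * x ≤ N} : ℝ) / N) atTop (𝓝 δ)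

section orbit

variable {d m : ℕ} {r : ℤ → ℤ}

lemma mod_range (hd : 2 ≤ d) {y : ℤ} (hy : ¬ (d : ℤ) ∣ y) : 0 < y % d ∧ y % d < d := by
  have hd0 : (0 : ℤ) < d := by exact_mod_cast (by omega : 0 < d)
  have h1 := Int.emod_nonneg y hd0.ne'
  have h2 := Int.emod_lt_of_pos y hd0
  have h3 : y % d ≠ 0 := fun h => hy (Int.dvd_of_emod_eq_zero h)
  omega

lemma H_spec (hd : 2 ≤ d)
    (hr : ∀ j : ℤ, 0 < j → j < (d : ℤ) → r j ≡ (m : ℤ) * j [ZMOD (d : ℤ)]) {y : ℤ}
    (hy : ¬ (d : ℤ) ∣ y) (hpos : r (y % d) < m * y) :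
    ¬ (d : ℤ) ∣ H d m r y ∧ 0 < H d m r y ∧
      ∃ v : ℕ, m * y - r (y % d) = (d : ℤ) ^ (v + 1) * H d m r y := by
  set z := m * y - r (y % d) with hz
  have hz0 : z ≠ 0 := by omega
  obtain ⟨h1, h2⟩ := mod_range hd hy
  have hdz : (d : ℤ) ∣ z := by
    have h3 := (hr (y % d) h1 h2).dvd
    have h4 : (d : ℤ) ∣ m * (y - y % d) := Dvd.dvd.mul_left (Int.dvd_self_sub_emod) _
    have h5 := dvd_add h3 h4
    have h6 : (m : ℤ) * (y % d) - r (y % d) + m * (y - y % d) = z := by rw [hz]; ring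
    rwa [h6] at h5
  have hfin : FiniteMultiplicity (d : ℤ) z := by
    rw [Int.finiteMultiplicity_iff]
    refine ⟨?_, hz0⟩
    rw [Int.natAbs_natCast]
    omega
  have hv : 1 ≤ multiplicity (d : ℤ) z := by
    apply hfin.le_multiplicity_of_pow_dvd
    simpa using hdz
  obtain ⟨v, hv'⟩ : ∃ v, multiplicity (d : ℤ) z = v + 1 := ⟨multiplicity (d : ℤ) z - 1, by omega⟩
  have hdvd : (d : ℤ) ^ (v + 1) ∣ z := by rw [← hv']; exact pow_multiplicity_dvd _ _
  have hH : H d m r y = z / (d : ℤ) ^ (v + 1) := by unfold H; rw [← hz, hv']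
  have hzH : z = (d : ℤ) ^ (v + 1) * H d m r y := by rw [hH, Int.mul_ediv_cancel' hdvd]
  have hd0 : (0 : ℤ) < (d : ℤ) ^ (v + 1) := by
    have : (0 : ℤ) < d := by exact_mod_cast (by omega : 0 < d)
    positivity
  refine ⟨fun h => ?_, ?_, v, hzH⟩
  · have h7 : (d : ℤ) ^ (v + 1 + 1) ∣ z := by
      rw [hzH, pow_succ (d : ℤ) (v + 1)]
      exact mul_dvd_mul_left _ h
    have h8 := hfin.le_multiplicity_of_pow_dvd h7
    omega
  · have hzp : 0 < z := by omega
    rw [hzH] at hzp
    exact (mul_pos_iff_of_pos_left hd0).1 hzp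

/-- a point of the `H`-orbit is reached by `T` -/
lemma T_reach (hd : 2 ≤ d)
    (hr : ∀ j : ℤ, 0 < j → j < (d : ℤ) → r j ≡ (m : ℤ) * j [ZMOD (d : ℤ)]) {y : ℤ}
    (hy : ¬ (d : ℤ) ∣ y) (hpos : r (y % d) < m * y) :
    ∃ v : ℕ, (T d m r)^[v + 1] y = H d m r y ∧
      ∀ i ≤ v, (T d m r)^[i + 1] y = (d : ℤ) ^ (v - i) * H d m r y := by
  have hd0 : (0 : ℤ) < d := by exact_mod_cast (by omega : 0 < d)
  obtain ⟨-, -, v, hv⟩ := H_spec hd hr hy hpos
  have key : ∀ i ≤ v, (T d m r)^[i + 1] y = (d : ℤ) ^ (v - i) * H d m r y := by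
    intro i
    induction i with
    | zero =>
      intro _
      show T d m r y = _
      unfold T
      rw [if_neg hy, hv, pow_succ', mul_assoc, Int.mul_ediv_cancel_left _ hd0.ne']
      simp
    | succ i ih =>
      intro hi
      rw [Function.iterate_succ_apply', ih (by omega)]
      have e1 : v - i = (v - (i + 1)) + 1 := by omega
      rw [e1, pow_succ', mul_assoc]
      unfold T
      rw [if_pos (Dvd.intro _ rfl), Int.mul_ediv_cancel_left _ hd0.ne']
  refine ⟨v, ?_, key⟩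
  rw [key v le_rfl]
  simp

lemma orbit_H (hd : 2 ≤ d) (hm : 1 ≤ m)
    (hr : ∀ j : ℤ, 0 < j → j < (d : ℤ) → r j ≡ (m : ℤ) * j [ZMOD (d : ℤ)]) {n : ℤ}
    (hn : n ∈ E d m r) (hR : ∀ j : ℤ, 0 < j → j < d → r j < n) (k : ℕ) :
    n ≤ (H d m r)^[k] n ∧ ¬ (d : ℤ) ∣ (H d m r)^[k] n := by
  obtain ⟨hn0, hdn, hE⟩ := hn
  have hmR : (1 : ℤ) ≤ m := by exact_mod_cast hm
  have hdef : ∀ y : ℤ, n ≤ y → ¬ (d : ℤ) ∣ y → r (y % d) < m * y := by
    intro y hy hdy
    obtain ⟨h1, h2⟩ := mod_range hd hdy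
    have h3 := hR _ h1 h2
    nlinarith
  induction k using Nat.strong_induction_on with
  | _ k ih =>
    rcases Nat.eq_zero_or_pos k with h0 | h0
    · rw [h0]; exact ⟨le_rfl, hdn⟩
    · refine ⟨hE k h0 (fun i hi => hdef _ (ih i hi).1 (ih i hi).2), ?_⟩
      obtain ⟨j, rfl⟩ : ∃ j, k = j + 1 := ⟨k - 1, by omega⟩
      rw [Function.iterate_succ_apply']
      obtain ⟨h1, h2⟩ := ih j (by omega)
      exact (H_spec hd hr h2 (hdef _ h1 h2)).1

lemma orbit_T (hd : 2 ≤ d) (hm : 1 ≤ m)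
    (hr : ∀ j : ℤ, 0 < j → j < (d : ℤ) → r j ≡ (m : ℤ) * j [ZMOD (d : ℤ)]) {n : ℤ}
    (hn : n ∈ E d m r) (hR : ∀ j : ℤ, 0 < j → j < d → r j < n) (i : ℕ) :
    ∃ k a : ℕ, (T d m r)^[i] n = (d : ℤ) ^ a * (H d m r)^[k] n := by
  have hd0 : (0 : ℤ) < d := by exact_mod_cast (by omega : 0 < d)
  have hmR : (1 : ℤ) ≤ m := by exact_mod_cast hm
  induction i with
  | zero => exact ⟨0, 0, by simp⟩
  | succ i ih =>
    obtain ⟨k, a, h⟩ := ih
    rw [Function.iterate_succ_apply', h]
    obtain ⟨h1, h2⟩ := orbit_H hd hm hr hn hR k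
    set y := (H d m r)^[k] n with hy
    rcases Nat.eq_zero_or_pos a with h0 | h0
    · subst h0
      rw [pow_zero, one_mul]
      obtain ⟨g1, g2⟩ := mod_range hd h2
      have hpos : r (y % d) < m * y := by
        have h3 := hR _ g1 g2
        have := hn.1
        nlinarith
      obtain ⟨-, -, v, hv⟩ := H_spec hd hr h2 hpos
      refine ⟨k + 1, v, ?_⟩
      rw [Function.iterate_succ_apply', ← hy]
      unfold T
      rw [if_neg h2, hv, pow_succ']
      rw [mul_assoc, Int.mul_ediv_cancel_left _ hd0.ne']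
    · obtain ⟨b, rfl⟩ : ∃ b, a = b + 1 := ⟨a - 1, by omega⟩
      refine ⟨k, b, ?_⟩
      unfold T
      have h3 : (d : ℤ) ^ (b + 1) * y = d * ((d : ℤ) ^ b * y) := by rw [pow_succ']; ring
      rw [h3, if_pos (Dvd.intro _ rfl), Int.mul_ediv_cancel_left _ hd0.ne']

lemma orbit_ge (hd : 2 ≤ d) (hm : 1 ≤ m)
    (hr : ∀ j : ℤ, 0 < j → j < (d : ℤ) → r j ≡ (m : ℤ) * j [ZMOD (d : ℤ)]) {n : ℤ}
    (hn : n ∈ E d m r) (hR : ∀ j : ℤ, 0 < j → j < d → r j < n) (i : ℕ) :
    n ≤ (T d m r)^[i] n := by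
  obtain ⟨k, a, h⟩ := orbit_T hd hm hr hn hR i
  obtain ⟨h1, -⟩ := orbit_H hd hm hr hn hR k
  have hn0 := hn.1
  have hda : (1 : ℤ) ≤ (d : ℤ) ^ a := one_le_pow₀ (by exact_mod_cast (by omega : 1 ≤ d))
  rw [h]
  nlinarith

/-- a point `b > 0`, not divisible by `d`, that is minimal among the points of its `T`-orbit that are
not divisible by `d`, lies in `E` -/
lemma mem_E (hd : 2 ≤ d)
    (hr : ∀ j : ℤ, 0 < j → j < (d : ℤ) → r j ≡ (m : ℤ) * j [ZMOD (d : ℤ)]) {b : ℤ}
    (hb : 0 < b) (hdb : ¬ (d : ℤ) ∣ b)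
    (hmin : ∀ k, ¬ (d : ℤ) ∣ (T d m r)^[k] b → b ≤ (T d m r)^[k] b) : b ∈ E d m r := by
  refine ⟨hb, hdb, fun k _ hdef => ?_⟩
  have key : ∀ l ≤ k, ∃ i, (T d m r)^[i] b = (H d m r)^[l] b ∧ ¬ (d : ℤ) ∣ (H d m r)^[l] b := by
    intro l
    induction l with
    | zero => exact fun _ => ⟨0, rfl, hdb⟩
    | succ l ih =>
      intro hl
      obtain ⟨i, h1, h2⟩ := ih (by omega)
      obtain ⟨v, h3, -⟩ := T_reach hd hr h2 (hdef l (by omega))
      refine ⟨v + 1 + i, ?_, ?_⟩
      · rw [Function.iterate_add_apply, h1, h3, Function.iterate_succ_apply']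
      · rw [Function.iterate_succ_apply']
        exact (H_spec hd hr h2 (hdef l (by omega))).1
  obtain ⟨i, h1, h2⟩ := key k le_rfl
  rw [← h1] at h2 ⊢
  exact hmin i h2

/-- a positive point has an orbit point not divisible by `d` among the positive points of the orbit -/
lemma exists_nd (hd : 2 ≤ d) (N : ℕ) : ∀ z : ℤ, 0 < z → z.toNat ≤ N →
    ∃ i : ℕ, ¬ (d : ℤ) ∣ (T d m r)^[i] z ∧ 0 < (T d m r)^[i] z ∧ (T d m r)^[i] z ≤ z := by
  induction N with
  | zero => intro z hz h; omega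
  | succ N ih =>
    intro z hz hN
    by_cases h : (d : ℤ) ∣ z
    · have hT : T d m r z = z / d := by unfold T; rw [if_pos h]
      obtain ⟨t, ht⟩ := h
      have hd0 : (0 : ℤ) < d := by exact_mod_cast (by omega : 0 < d)
      have hTt : T d m r z = t := by rw [hT, ht, Int.mul_ediv_cancel_left _ hd0.ne']
      have ht0 : 0 < t := by
        by_contra hcon
        push Not at hcon
        nlinarith
      have hd2 : (2 : ℤ) ≤ d := by exact_mod_cast hd
      have htz : t < z := by nlinarith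
      obtain ⟨i, h1, h2, h3⟩ := ih t ht0 (by omega)
      refine ⟨i + 1, ?_, ?_, ?_⟩
      · rwa [Function.iterate_succ_apply, hTt]
      · rwa [Function.iterate_succ_apply, hTt]
      · rw [Function.iterate_succ_apply, hTt]; linarith
    · exact ⟨0, h, hz, le_refl _⟩

/-- an orbit bounded below by `M ≥ 0`, all of whose points are positive, has a point of `E` -/
lemma orbit_meets_E (hd : 2 ≤ d)
    (hr : ∀ j : ℤ, 0 < j → j < (d : ℤ) → r j ≡ (m : ℤ) * j [ZMOD (d : ℤ)]) {z : ℤ}
    (hpos : ∀ k, 0 < (T d m r)^[k] z) : ∃ i, (T d m r)^[i] z ∈ E d m r := by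
  classical
  obtain ⟨i, h1, -, -⟩ := exists_nd (m := m) (r := r) hd _ z (hpos 0) le_rfl
  have hex : ∃ v : ℕ, ∃ j : ℕ, ¬ (d : ℤ) ∣ (T d m r)^[j] z ∧ ((T d m r)^[j] z).toNat = v :=
    ⟨_, i, h1, rfl⟩
  obtain ⟨j, hj1, hj2⟩ := Nat.find_spec hex
  refine ⟨j, mem_E hd hr (hpos j) hj1 ?_⟩
  intro l hl
  rw [← Function.iterate_add_apply] at hl ⊢
  have h3 := Nat.find_min' hex ⟨l + j, hl, rfl⟩
  have h4 := hpos (l + j)
  have h5 := hpos j
  omega

/-- an orbit that is not eventually periodic and is bounded below tends to infinity -/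
lemma tendsto_of_inj {f : ℕ → ℤ} (hf : Function.Injective f) {B : ℤ} (hB : ∀ k, B ≤ f k) :
    Tendsto f atTop atTop := by
  have h1 : Tendsto f cofinite cofinite := hf.tendsto_cofinite
  rw [Nat.cofinite_eq_atTop] at h1
  rw [tendsto_atTop]
  intro M
  have h2 : (Set.Ico B M)ᶜ ∈ (cofinite : Filter ℤ) := (Set.finite_Ico B M).compl_mem_cofinite
  have h3 := h1 h2
  filter_upwards [h3] with k hk
  simp only [Set.mem_compl_iff, Set.mem_Ico, not_and, not_lt, Set.mem_preimage] at hk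
  exact hk (hB k)

lemma iter_periodic {f : ℤ → ℤ} {c : ℤ} {p : ℕ} (hp : 1 ≤ p) (hc : f^[p] c = c) (k : ℕ) :
    ∃ l < p, f^[k] c = f^[l] c := by
  refine ⟨k % p, Nat.mod_lt _ hp, ?_⟩
  have h1 : ∀ q : ℕ, f^[p * q] c = c := by
    intro q
    induction q with
    | zero => rfl
    | succ q ih => rw [Nat.mul_succ, Function.iterate_add_apply, hc, ih]
  conv_lhs => rw [← Nat.mod_add_div k p, Function.iterate_add_apply, h1]

end orbit

/-- Let `gcd(m, d) = 1`, `2 ≤ m ≤ d ^ (d / (d - 1))` and `r_j ≡ m j mod d` (`1 ≤ j < d`), with no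
further hypothesis on `d`, `m` or the `r_j`.
(1) Let `S` be a set of integers with `0 ∉ S` and `x ∈ S ↔ T x ∈ S` for all `x`, and let
`σ = 1` or `σ = -1`. If the trajectory of some point of `S` is infinitely often on the side `σ` of
`0`, then `S` has a natural density on the side `σ`, and it is positive.
(2) For every element `e` of the exceptional set `E(d, m, R)` larger than all `r_j`, the positive
integers whose `T`-trajectory meets that of `e` have a positive natural density.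
(3) If the `T`-trajectory of some integer tends to `+∞`, then the positive integers whose trajectory
tends to `+∞` have a positive natural density.
(4) `E(d, m, R)` is infinite if and only if infinitely many positive integers are periodic under `T` or
the positive integers whose trajectory tends to `+∞` have a positive natural density. -/
theorem result (d m : ℕ) (hd : 2 ≤ d) (hm : 2 ≤ m) (hc : Nat.Coprime m d)
    (hle : (m : ℝ) ≤ (d : ℝ) ^ ((d : ℝ) / ((d : ℝ) - 1)))
    (r : ℤ → ℤ) (hr : ∀ j : ℤ, 0 < j → j < (d : ℤ) → r j ≡ (m : ℤ) * j [ZMOD (d : ℤ)]) :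
    (∀ S : Set ℤ, (0 : ℤ) ∉ S → (∀ x : ℤ, x ∈ S ↔ T d m r x ∈ S) →
      ∀ σ : ℤ, (σ = 1 ∨ σ = -1) →
      (∃ x ∈ S, ∀ k₀ : ℕ, ∃ k, k₀ ≤ k ∧ 0 < σ * (T d m r)^[k] x) →
      ∃ δ : ℝ, 0 < δ ∧ HasDensity S σ δ) ∧
    (∀ e ∈ E d m r, (∀ j : ℤ, 0 < j → j < (d : ℤ) → r j < e) →
      ∃ δ : ℝ, 0 < δ ∧ HasDensity {n : ℤ | ∃ i j : ℕ, (T d m r)^[i] n = (T d m r)^[j] e} 1 δ) ∧
    ((∃ n : ℤ, Tendsto (fun k : ℕ => (T d m r)^[k] n) atTop atTop) →
      ∃ δ : ℝ, 0 < δ ∧ HasDensity {n : ℤ | Tendsto (fun k : ℕ => (T d m r)^[k] n) atTop atTop} 1 δ) ∧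
    ((E d m r).Infinite ↔
      ({c : ℤ | 0 < c ∧ ∃ p : ℕ, 1 ≤ p ∧ (T d m r)^[p] c = c}.Infinite ∨
        ∃ δ : ℝ, 0 < δ ∧
          HasDensity {n : ℤ | Tendsto (fun k : ℕ => (T d m r)^[k] n) atTop atTop} 1 δ)) := by
  have hTT : T d m r = Pool.Agent.W39.TM d m r := rfl
  have p1 : ∀ S : Set ℤ, (0 : ℤ) ∉ S → (∀ x : ℤ, x ∈ S ↔ T d m r x ∈ S) →
      ∀ σ : ℤ, (σ = 1 ∨ σ = -1) →
      (∃ x ∈ S, ∀ k₀ : ℕ, ∃ k, k₀ ≤ k ∧ 0 < σ * (T d m r)^[k] x) →
      ∃ δ : ℝ, 0 < δ ∧ HasDensity S σ δ := by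
    rintro S h0 hS σ hσ ⟨x, hxS, hside⟩
    have hk : ∀ k, (T d m r)^[k] x ∈ S := by
      intro k
      induction k with
      | zero => exact hxS
      | succ k ih => rw [Function.iterate_succ_apply']; exact (hS _).1 ih
    exact Pool.Agent.W39.dens_pos hd hm hc hle hr hS hxS
      (fun k h => h0 (by rw [← h]; exact hk k)) hσ hside
  -- divergent trajectories
  have p3 : (∃ n : ℤ, Tendsto (fun k : ℕ => (T d m r)^[k] n) atTop atTop) →
      ∃ δ : ℝ, 0 < δ ∧
        HasDensity {n : ℤ | Tendsto (fun k : ℕ => (T d m r)^[k] n) atTop atTop} 1 δ := by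
    rintro ⟨n, hn⟩
    have hT0 : T d m r 0 = 0 := by unfold T; simp
    refine p1 _ ?_ ?_ 1 (Or.inl rfl) ⟨n, hn, ?_⟩
    · intro h
      have h1 : ∀ k : ℕ, (T d m r)^[k] 0 = 0 := fun k => Function.iterate_fixed hT0 k
      simp only [Set.mem_ofPred_eq, h1] at h
      exact not_tendsto_const_atTop (0 : ℤ) _ h
    · intro x
      simp only [Set.mem_ofPred_eq]
      rw [← tendsto_add_atTop_iff_nat 1]
      simp only [Function.iterate_succ_apply]
    · intro k₀
      obtain ⟨k, h1, h2⟩ := ((hn.eventually_ge_atTop 1).and (eventually_ge_atTop k₀)).exists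
      exact ⟨k, h2, by omega⟩
  have hm1 : 1 ≤ m := by omega
  have p2 : ∀ e ∈ E d m r, (∀ j : ℤ, 0 < j → j < (d : ℤ) → r j < e) →
      ∃ δ : ℝ, 0 < δ ∧
        HasDensity {n : ℤ | ∃ i j : ℕ, (T d m r)^[i] n = (T d m r)^[j] e} 1 δ := by
    intro e he hR
    have hge := orbit_ge hd hm1 hr he hR
    have he0 := he.1
    have hT0 : T d m r 0 = 0 := by unfold T; simp
    refine p1 _ ?_ ?_ 1 (Or.inl rfl) ⟨e, ⟨0, 0, rfl⟩, ?_⟩
    · rintro ⟨i, j, hij⟩
      rw [Function.iterate_fixed hT0] at hij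
      have := hge j
      omega
    · intro x
      constructor
      · rintro ⟨i, j, hij⟩
        refine ⟨i, j + 1, ?_⟩
        rw [← Function.iterate_succ_apply, Function.iterate_succ_apply', hij,
          Function.iterate_succ_apply']
      · rintro ⟨i, j, hij⟩
        exact ⟨i + 1, j, by rw [Function.iterate_succ_apply, hij]⟩
    · intro k₀
      refine ⟨k₀, le_rfl, ?_⟩
      have := hge k₀
      omega
  refine ⟨p1, p2, p3, ?_, ?_⟩
  · -- an infinite exceptional set
    intro hE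
    by_cases hcyc : {c : ℤ | 0 < c ∧ ∃ p : ℕ, 1 ≤ p ∧ (T d m r)^[p] c = c}.Infinite
    · exact Or.inl hcyc
    · right
      apply p3
      rw [Set.not_infinite] at hcyc
      obtain ⟨M₁, hM₁⟩ := hcyc.bddAbove
      obtain ⟨M₂, hM₂⟩ : ∃ M₂ : ℤ, ∀ j : ℤ, 0 < j → j < (d : ℤ) → r j ≤ M₂ := by
        obtain ⟨M₂, hM₂⟩ := ((Set.finite_Ioo (0 : ℤ) d).image r).bddAbove
        exact ⟨M₂, fun j h1 h2 => hM₂ ⟨j, ⟨h1, h2⟩, rfl⟩⟩
      obtain ⟨e, heE, heM⟩ : ∃ e ∈ E d m r, max M₁ M₂ < e := by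
        by_contra hcon
        push Not at hcon
        apply hE
        refine (Set.finite_Icc (1 : ℤ) (max M₁ M₂)).subset ?_
        intro e he
        have := he.1
        exact ⟨by omega, hcon e he⟩
      have h1 : M₁ < e := lt_of_le_of_lt (le_max_left _ _) heM
      have h2 : M₂ < e := lt_of_le_of_lt (le_max_right _ _) heM
      have hge := orbit_ge hd hm1 hr heE (fun j g1 g2 => lt_of_le_of_lt (hM₂ j g1 g2) h2)
      have he0 := heE.1
      refine ⟨e, tendsto_of_inj ?_ hge⟩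
      have hlt : ∀ i j : ℕ, i < j → (T d m r)^[i] e ≠ (T d m r)^[j] e := by
        intro i j hij heq
        have h3 : (T d m r)^[i] e ≤ M₁ := by
          apply hM₁
          refine ⟨by have := hge i; omega, j - i, by omega, ?_⟩
          rw [← Function.iterate_add_apply, Nat.sub_add_cancel hij.le, heq]
        have := hge i
        omega
      intro i j hij
      rcases lt_trichotomy i j with h | h | h
      · exact absurd hij (hlt i j h)
      · exact h
      · exact absurd hij.symm (hlt j i h)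
  · -- the converse
    rintro (hcyc | ⟨δ, hδ, hdens⟩)
    · -- infinitely many periodic points
      intro hE
      rw [Set.Infinite] at hcyc
      apply hcyc
      obtain ⟨M₂, hM₂⟩ : ∃ M₂ : ℤ, ∀ j : ℤ, 0 < j → j < (d : ℤ) → r j ≤ M₂ := by
        obtain ⟨M₂, hM₂⟩ := ((Set.finite_Ioo (0 : ℤ) d).image r).bddAbove
        exact ⟨M₂, fun j h1 h2 => hM₂ ⟨j, ⟨h1, h2⟩, rfl⟩⟩
      -- periodic points in a finite set
      have hB : ((E d m r) ∪ Set.Icc 1 M₂).Finite := hE.union (Set.finite_Icc _ _)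
      have hfin : (⋃ b ∈ ((E d m r) ∪ Set.Icc 1 M₂),
          {z : ℤ | (∃ p : ℕ, 1 ≤ p ∧ (T d m r)^[p] b = b) ∧ ∃ k : ℕ, (T d m r)^[k] b = z}).Finite := by
        apply hB.biUnion
        intro b _
        by_cases hb : ∃ p : ℕ, 1 ≤ p ∧ (T d m r)^[p] b = b
        · obtain ⟨p, hp, hpb⟩ := hb
          refine ((Set.finite_Iio p).image (fun l => (T d m r)^[l] b)).subset ?_
          rintro z ⟨-, k, hk⟩
          obtain ⟨l, hl, hl2⟩ := iter_periodic hp hpb k
          exact ⟨l, hl, by rw [← hk, hl2]⟩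
        · refine Set.finite_empty.subset ?_
          rintro z ⟨h, -⟩
          exact absurd h hb
      refine hfin.subset ?_
      rintro c ⟨hc0, p, hp, hpc⟩
      -- the point `b` of the cycle
      have hback : ∀ k : ℕ, ∃ l : ℕ, (T d m r)^[l] ((T d m r)^[k] c) = c := by
        intro k
        have h1 : ∀ q : ℕ, (T d m r)^[p * q] c = c := by
          intro q
          induction q with
          | zero => rfl
          | succ q ih => rw [Nat.mul_succ, Function.iterate_add_apply, hpc, ih]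
        refine ⟨p * k - k, ?_⟩
        rw [← Function.iterate_add_apply, Nat.sub_add_cancel (Nat.le_mul_of_pos_left k hp), h1]
      have hper : ∀ k : ℕ, (T d m r)^[p] ((T d m r)^[k] c) = (T d m r)^[k] c := by
        intro k
        rw [← Function.iterate_add_apply, add_comm, Function.iterate_add_apply, hpc]
      have hfind : ∃ k : ℕ, (T d m r)^[k] c ∈ (E d m r) ∪ Set.Icc 1 M₂ := by
        by_cases hall : ∀ k, 0 < (T d m r)^[k] c
        · obtain ⟨i, hi⟩ := orbit_meets_E hd hr hall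
          exact ⟨i, Or.inl hi⟩
        · push Not at hall
          classical
          have h1 : ¬ (T d m r)^[Nat.find hall] c > 0 := not_lt.2 (Nat.find_spec hall)
          have h2 : Nat.find hall ≠ 0 := by
            intro h0
            rw [h0] at h1
            exact h1 hc0
          obtain ⟨l, hl⟩ := Nat.exists_eq_succ_of_ne_zero h2
          have h3 : 0 < (T d m r)^[l] c := by
            by_contra hcon
            exact Nat.find_min hall (by omega : l < Nat.find hall) (not_lt.1 hcon)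
          refine ⟨l, Or.inr ⟨by omega, ?_⟩⟩
          set y := (T d m r)^[l] c with hy
          have h4 : T d m r y ≤ 0 := by
            have h5 := Nat.find_spec hall
            rw [hl, Function.iterate_succ_apply'] at h5
            exact h5
          have hd0 : (0 : ℤ) < d := by exact_mod_cast (by omega : 0 < d)
          unfold T at h4
          by_cases hdy : (d : ℤ) ∣ y
          · rw [if_pos hdy] at h4
            obtain ⟨t, ht⟩ := hdy
            rw [ht, Int.mul_ediv_cancel_left _ hd0.ne'] at h4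
            nlinarith
          · rw [if_neg hdy] at h4
            obtain ⟨g1, g2⟩ := mod_range hd hdy
            have hdz : (d : ℤ) ∣ (m * y - r (y % d)) := by
              have h3 := (hr (y % d) g1 g2).dvd
              have h4 : (d : ℤ) ∣ m * (y - y % d) := Dvd.dvd.mul_left (Int.dvd_self_sub_emod) _
              have h5 := dvd_add h3 h4
              have h6 : (m : ℤ) * (y % d) - r (y % d) + m * (y - y % d) = m * y - r (y % d) := by
                ring
              rwa [h6] at h5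
            obtain ⟨t, ht⟩ := hdz
            rw [ht, Int.mul_ediv_cancel_left _ hd0.ne'] at h4
            have h5 : (m : ℤ) * y - r (y % d) ≤ 0 := by
              rw [ht]
              exact mul_nonpos_of_nonneg_of_nonpos hd0.le h4
            have h6 := hM₂ _ g1 g2
            have h7 : (2 : ℤ) ≤ m := by exact_mod_cast hm
            nlinarith
      obtain ⟨k, hk⟩ := hfind
      obtain ⟨l, hl⟩ := hback k
      simp only [Set.mem_iUnion]
      exact ⟨_, hk, ⟨p, hp, hper k⟩, l, hl⟩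
    · -- a divergent trajectory
      obtain ⟨n, hn⟩ : ∃ n : ℤ, Tendsto (fun k : ℕ => (T d m r)^[k] n) atTop atTop := by
        by_contra hcon
        push Not at hcon
        have h1 : {n : ℤ | Tendsto (fun k : ℕ => (T d m r)^[k] n) atTop atTop} = ∅ := by
          ext n
          simpa using hcon n
        rw [h1] at hdens
        unfold HasDensity at hdens
        simp only [Set.mem_empty_iff_false, false_and, Set.ofPred_false, Set.ncard_empty,
          Nat.cast_zero, zero_div] at hdens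
        have := tendsto_nhds_unique hdens tendsto_const_nhds
        linarith
      intro hE
      obtain ⟨M, hM⟩ := hE.bddAbove
      obtain ⟨K, hK⟩ := eventually_atTop.1 (hn.eventually_ge_atTop (max M 0 + 1))
      have hpos : ∀ k, 0 < (T d m r)^[k] ((T d m r)^[K] n) := by
        intro k
        rw [← Function.iterate_add_apply]
        have := hK (k + K) (by omega)
        have h2 := le_max_right M 0
        omega
      obtain ⟨i, hi⟩ := orbit_meets_E hd hr hpos
      have h1 := hM hi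
      rw [← Function.iterate_add_apply] at h1
      have h2 := hK (i + K) (by omega)
      have h3 := le_max_left M 0
      omega

end Pool.Agent.Results.MP_fd8838_nt.EveryClassPositive
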